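import Pool.Agent.HC2.Cls
import Pool.Agent.HC2.MedD

/-!
Let `G` act on a simply connected polygonal 2-complex which has a well-founded matching of its
2-cells with edges (for instance a CAT(0) cube complex of dimension at most two, see
`Pool.Agent.HC2.cxAct_of_median`), with coherent vertex stabilizers and slender pointwise
stabilizers of 2-cells.  If `G` is of type `FP₂` then `G` is finitely presented.
-/

namespace Pool.Agent.Results.MP_9d43cd_al.MatchedComplex

open Pool.Agent.HC Pool.Agent.HC2

theorem result (G : Type) [Group G] (V : Type) [MulAction G V] (X : SimpleGraph V)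
    (C : Set (List V)) (hX : CxAct G V X C)
    (hst : ∀ v : V, Coherent (MulAction.stabilizer G v))
    (hG : IsFP2 G) : Group.IsFinitelyPresented G :=
  Pool.Agent.HC2.act_fp G V X C hX hst hG

end Pool.Agent.Results.MP_9d43cd_al.MatchedComplex
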