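import Pool.Agent.HC2.Cls
import Pool.Agent.HC2.MedD

/-!
Homologically coherent groups in the class `𝒦` are coherent; `𝒦` is the smallest class of groups
which contains all coherent groups and is closed under local embeddability, finite index
overgroups, extensions of slender groups, and actions on simply connected polygonal 2-complexes with
a well-founded matching (vertex stabilizers in the class, slender stabilizers of 2-cells).
-/

namespace Pool.Agent.Results.MP_9d43cd_al.MatchedHierarchy

open Pool.Agent.HC Pool.Agent.HC2

theorem result (G : Type) [i : Group G] (hG : Pool.Agent.HC2.ClassK G i) (h : HomCoherent G) :
    Coherent G :=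
  Pool.Agent.HC2.classK_coherent G hG h

end Pool.Agent.Results.MP_9d43cd_al.MatchedHierarchy
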